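import Mathlib
import Pool.Agent.Helper477.Sph.Bd9

set_option autoImplicit false

namespace Pool.Agent.Results.MP_3d5f1b_gt.LensBounded

/-- `Γ` acts freely on the unit sphere of `ℝ^N`: no element other than the identity fixes a unit
vector. -/
def ActsFreely {N : ℕ} (Γ : Subgroup (Matrix.orthogonalGroup (Fin N) ℝ)) : Prop :=
  ∀ g ∈ Γ, g ≠ 1 → ∀ v : Fin N → ℝ, v ⬝ᵥ v = 1 → g.1.mulVec v ≠ v

/-- The dimension of the space of `Γ`-invariant harmonic homogeneous polynomials of degree `k` on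
`ℝ^N`, i.e. the multiplicity of the eigenvalue `k (k + N - 2)` of the Laplacian on the quotient of
the unit sphere by `Γ`. -/
noncomputable def multiplicity {N : ℕ} (Γ : Subgroup (Matrix.orthogonalGroup (Fin N) ℝ))
    (k : ℕ) : ℕ :=
  Module.finrank ℝ ↥(MvPolynomial.homogeneousSubmodule (Fin N) ℝ k ⊓
    LinearMap.ker (∑ i : Fin N,
      (MvPolynomial.pderiv i).toLinearMap ∘ₗ (MvPolynomial.pderiv i).toLinearMap) ⊓
    ⨅ g ∈ Γ, LinearMap.ker ((MvPolynomial.aeval (fun i : Fin N =>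
      ∑ j : Fin N, MvPolynomial.C (g.1 i j) * MvPolynomial.X j)).toLinearMap
        - LinearMap.id))

/-- The two quotients of the sphere have the same Laplace spectrum with multiplicities. -/
def Isospectral {N : ℕ} (Γ₁ Γ₂ : Subgroup (Matrix.orthogonalGroup (Fin N) ℝ)) : Prop :=
  ∀ k : ℕ, multiplicity Γ₁ k = multiplicity Γ₂ k

/-- The two quotients of the sphere are isometric: the groups are conjugate in `O(N)`. -/
def Isometric {N : ℕ} (Γ₁ Γ₂ : Subgroup (Matrix.orthogonalGroup (Fin N) ℝ)) : Prop :=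
  ∃ h : Matrix.orthogonalGroup (Fin N) ℝ, ∀ g, g ∈ Γ₁ ↔ h * g * h⁻¹ ∈ Γ₂

/-- The volume of the round unit sphere `S^d` in `ℝ^(d+1)`. -/
noncomputable def sphereVolume (d : ℕ) : ℝ :=
  ((MeasureTheory.volume : MeasureTheory.Measure (EuclideanSpace ℝ (Fin (d + 1)))).toSphere
    Set.univ).toReal

/-- `s` is an isospectral set of `d`-dimensional lens spaces `S^d / Γ` of volume `x`: the `Γ ∈ s`
are finite cyclic subgroups of `O(d+1)` acting freely on `S^d` with quotient of volume `x`, and any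
two distinct ones have isospectral and non-isometric quotients. -/
structure IsIsospectralLensSet (d : ℕ) (x : ℝ)
    (s : Set (Subgroup (Matrix.orthogonalGroup (Fin (d + 1)) ℝ))) : Prop where
  finite : ∀ Γ ∈ s, Finite Γ
  free : ∀ Γ ∈ s, ActsFreely Γ
  cyclic : ∀ Γ ∈ s, IsCyclic Γ
  volume : ∀ Γ ∈ s, sphereVolume d / Nat.card Γ = x
  isospectral : ∀ Γ₁ ∈ s, ∀ Γ₂ ∈ s, Γ₁ ≠ Γ₂ → Isospectral Γ₁ Γ₂
  not_isometric : ∀ Γ₁ ∈ s, ∀ Γ₂ ∈ s, Γ₁ ≠ Γ₂ → ¬ Isometric Γ₁ Γ₂

/-- The largest cardinality of an isospectral set of `d`-dimensional lens spaces of volume `x`. -/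
noncomputable def lensN (d : ℕ) (x : ℝ) : ℕ∞ :=
  ⨆ s : {s : Set (Subgroup (Matrix.orthogonalGroup (Fin (d + 1)) ℝ)) //
    IsIsospectralLensSet d x s}, s.1.encard

open Pool.Agent.Helper477 Pool.Agent.Helper477.Sph Pool.Agent.Helper477.HarmInv

theorem free_iff {N : ℕ} (Γ : Subgroup (Matrix.orthogonalGroup (Fin N) ℝ)) :
    ActsFreely Γ ↔ FreeOn Γ := by
  constructor
  · intro h g hg hg1 v hv
    by_contra hv0
    have h1 : 0 < v ⬝ᵥ v := by
      rcases (dot_self_nonneg v).lt_or_eq with h2 | h2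
      · exact h2
      · exact absurd (dotProduct_self_eq_zero.mp h2.symm) hv0
    set c := (Real.sqrt (v ⬝ᵥ v))⁻¹ with hc
    refine h g hg hg1 (c • v) ?_ ?_
    · rw [smul_dotProduct, dotProduct_smul, smul_eq_mul, smul_eq_mul, ← mul_assoc, hc, ← mul_inv,
        Real.mul_self_sqrt h1.le, inv_mul_cancel₀ h1.ne']
    · rw [Matrix.mulVec_smul, hv]
  · intro h g hg hg1 v hv hgv
    rw [h g hg hg1 v hgv] at hv
    simp at hv

theorem iso_iff {N : ℕ} (hN : 0 < N) (Γ₁ Γ₂ : Subgroup (Matrix.orthogonalGroup (Fin N) ℝ)) :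
    Isospectral Γ₁ Γ₂ ↔ hilb Γ₁ = hilb Γ₂ := by
  have hm : ∀ (Γ : Subgroup (Matrix.orthogonalGroup (Fin N) ℝ)) (k : ℕ), multiplicity Γ k =
      Module.finrank ℝ ↥(MvPolynomial.homogeneousSubmodule (Fin N) ℝ k ⊓ LinearMap.ker (D N) ⊓
        Inv Γ) := fun Γ k => rfl
  constructor
  · intro h
    have key : ∀ k, Module.finrank ℝ ↥(MvPolynomial.homogeneousSubmodule (Fin N) ℝ k ⊓ Inv Γ₁) =
        Module.finrank ℝ ↥(MvPolynomial.homogeneousSubmodule (Fin N) ℝ k ⊓ Inv Γ₂) := by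
      intro k
      induction k using Nat.strong_induction_on with
      | _ k ih =>
        have hk := h k
        rw [hm, hm] at hk
        by_cases hk2 : k < 2
        · rwa [finrank_harmonic_low _ k hk2, finrank_harmonic_low _ k hk2] at hk
        · obtain ⟨m, rfl⟩ : ∃ m, k = m + 2 := ⟨k - 2, by omega⟩
          have h1 := finrank_harmonic hN (Inv Γ₁) (D_mem_Inv Γ₁) (rsq_mul_mem_Inv Γ₁) m
          have h2 := finrank_harmonic hN (Inv Γ₂) (D_mem_Inv Γ₂) (rsq_mul_mem_Inv Γ₂) m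
          have h3 := ih m (by omega)
          omega
    unfold hilb
    congr 1
    funext k
    rw [key k]
  · intro h k
    rw [hm, hm]
    refine isospectral_of_invariants hN Γ₁ Γ₂ (fun k => ?_) k
    have h1 := congrArg (PowerSeries.coeff k) h
    unfold hilb at h1
    rw [PowerSeries.coeff_mk, PowerSeries.coeff_mk] at h1
    exact_mod_cast h1

/-- In every dimension `d` the cardinalities of the isospectral sets of `d`-dimensional lens
spaces are bounded, uniformly in the volume. -/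
theorem result : ∀ d : ℕ, ∃ C : ℕ, ∀ x : ℝ, 0 < x → lensN d x ≤ C := by
  classical
  intro d
  obtain ⟨C, hC⟩ := lens_bounded (n := d + 1) (Nat.succ_pos d)
  refine ⟨C, fun x _ => iSup_le fun ⟨s, hs⟩ => ?_⟩
  by_contra hcon
  rw [not_le] at hcon
  have h1 : ((C + 1 : ℕ) : ℕ∞) ≤ s.encard := by
    push_cast
    exact Order.add_one_le_of_lt hcon
  obtain ⟨t, hts, ht⟩ := Set.exists_subset_encard_eq h1
  have htf : t.Finite := Set.finite_of_encard_eq_coe ht
  have h2 := hC htf.toFinset (by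
    intro Γ hΓ
    have hΓs := hts (htf.mem_toFinset.mp hΓ)
    exact ⟨hs.finite Γ hΓs, (free_iff Γ).mp (hs.free Γ hΓs), hs.cyclic Γ hΓs⟩) (by
    intro Γ hΓ Γ' hΓ' hne
    have hΓs := hts (htf.mem_toFinset.mp hΓ)
    have hΓs' := hts (htf.mem_toFinset.mp hΓ')
    exact ⟨(iso_iff (Nat.succ_pos d) _ _).mp (hs.isospectral Γ hΓs Γ' hΓs' hne),
      hs.not_isometric Γ hΓs Γ' hΓs' hne⟩)
  have h3 : htf.toFinset.card = C + 1 := by
    have h4 := ht
    rw [htf.encard_eq_coe_toFinset_card] at h4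
    exact_mod_cast h4
  omega

end Pool.Agent.Results.MP_3d5f1b_gt.LensBounded
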